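import Pool.Agent.Helper292.SetMap

/-!
# Set mappings without large free sets
-/

set_option autoImplicit false

open Set Cardinal

namespace Pool.Agent.Y785.SM5

universe u

section

variable {K L : Type u} [LinearOrder K] [WellFoundedLT K] [LinearOrder L] [WellFoundedLT L]

/-- the choice of the points -/
def Spec (A : K → Set K) (e : K → K → L) (G : K → K → K) : Prop :=
  ∀ a b, (∃ z ∈ A b, ∀ c < a, ∀ b' < c, e a c ≤ e a b → e c b' ≤ e a b → z ≠ G c b') →
    G a b ∈ A b ∧ ∀ c < a, ∀ b' < c, e a c ≤ e a b → e c b' ≤ e a b → G a b ≠ G c b'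

theorem exists_spec (A : K → Set K) (e : K → K → L) : ∃ G : K → K → K, Spec A e G := by
  classical
  let step : ∀ a : K, (∀ c : K, c < a → K → K) → K → K := fun a Gp b =>
    if h : ∃ z ∈ A b, ∀ (c : K) (hc : c < a), ∀ b' < c, e a c ≤ e a b → e c b' ≤ e a b →
      z ≠ Gp c hc b' then h.choose else a
  let G : K → K → K := (wellFounded_lt (α := K)).fix step
  have hG : ∀ a, G a = step a (fun c _ => G c) := fun a =>
    (wellFounded_lt (α := K)).fix_eq step a
  refine ⟨G, fun a b h => ?_⟩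
  have h1 : G a b = h.choose := by
    rw [hG a]
    exact dif_pos h
  rw [h1]
  exact h.choose_spec

/-- the set mapping -/
def fm (A : K → Set K) (G : K → K → K) (l : Cardinal.{u}) (a : K) : Set K :=
  {z | ∃ b < a, A b ⊆ Iio a ∧ #(A b) = l ∧ z = G a b}

/-- the points of level at most `r` -/
def lv (A : K → Set K) (e : K → K → L) (G : K → K → K) (l : Cardinal.{u}) (a : K) (r : L) :
    Set K :=
  {z | ∃ b < a, A b ⊆ Iio a ∧ #(A b) = l ∧ e a b ≤ r ∧ z = G a b}

theorem mk_lv_le {A : K → Set K} {e : K → K → L} {G : K → K → K} {l : Cardinal.{u}}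
    (he : ∀ a, InjOn (e a) (Iio a)) (a : K) (r : L) :
    #{z | ∃ b < a, e a b ≤ r ∧ z = G a b} ≤ #(Iic r) := by
  have h1 : {z | ∃ b < a, e a b ≤ r ∧ z = G a b} ⊆ (G a) '' {b | b < a ∧ e a b ≤ r} := by
    rintro z ⟨b, hb, h, rfl⟩
    exact ⟨b, ⟨hb, h⟩, rfl⟩
  refine (mk_le_mk_of_subset h1).trans (mk_image_le.trans ?_)
  refine mk_le_of_injective (f := fun b : {b | b < a ∧ e a b ≤ r} => (⟨e a b.1, b.2.2⟩ : Iic r)) ?_
  intro b b' h
  have h2 : e a b.1 = e a b'.1 := congrArg Subtype.val h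
  exact Subtype.ext (he a b.2.1 b'.2.1 h2)

variable {A : K → Set K} {e : K → K → L} {G : K → K → K} {l : Cardinal.{u}}

/-- there is a choice -/
theorem spec_mem (hl0 : ℵ₀ ≤ l) (hL : ∀ r : L, #(Iic r) < l)
    (he : ∀ a, InjOn (e a) (Iio a)) (hG : Spec A e G) {a b : K} (hA : #(A b) = l) :
    G a b ∈ A b ∧ ∀ c < a, ∀ b' < c, e a c ≤ e a b → e c b' ≤ e a b → G a b ≠ G c b' := by
  refine hG a b ?_
  by_contra hcon
  push Not at hcon
  have h1 : A b ⊆ ⋃ c : {c | c < a ∧ e a c ≤ e a b}, {z | ∃ b' < c.1, e c.1 b' ≤ e a b ∧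
      z = G c.1 b'} := by
    intro z hz
    obtain ⟨c, hc, b', hb', h2, h3, h4⟩ := hcon z hz
    exact mem_iUnion.2 ⟨⟨c, hc, h2⟩, b', hb', h3, h4⟩
  have h2 : #{c | c < a ∧ e a c ≤ e a b} ≤ #(Iic (e a b)) := by
    refine mk_le_of_injective
      (f := fun c : {c | c < a ∧ e a c ≤ e a b} => (⟨e a c.1, c.2.2⟩ : Iic (e a b))) ?_
    intro c c' h
    have h2 : e a c.1 = e a c'.1 := congrArg Subtype.val h
    exact Subtype.ext (he a c.2.1 c'.2.1 h2)
  have h3 : #(A b) ≤ #(Iic (e a b)) * #(Iic (e a b)) := by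
    refine (mk_le_mk_of_subset h1).trans ((mk_iUnion_le _).trans ?_)
    refine mul_le_mul' h2 (ciSup_le' fun c => ?_)
    exact mk_lv_le (l := l) (A := A) he c.1 (e a b)
  rw [hA] at h3
  exact absurd h3 (not_le.2 (mul_lt_of_lt hl0 (hL _) (hL _)))

theorem fm_sub (hl0 : ℵ₀ ≤ l) (hL : ∀ r : L, #(Iic r) < l)
    (he : ∀ a, InjOn (e a) (Iio a)) (hG : Spec A e G) (a : K) : fm A G l a ⊆ Iio a := by
  rintro z ⟨b, hb, h1, h2, rfl⟩
  exact h1 (spec_mem hl0 hL he hG h2).1

theorem mk_fm_le (a : K) : #(fm A G l a) ≤ #(Iio a) := by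
  have h1 : fm A G l a ⊆ (G a) '' (Iio a) := by
    rintro z ⟨b, hb, h1, h2, rfl⟩
    exact ⟨b, hb, rfl⟩
  exact (mk_le_mk_of_subset h1).trans mk_image_le

theorem lv_mono {a : K} {r s : L} (h : r ≤ s) : lv A e G l a r ⊆ lv A e G l a s := by
  rintro z ⟨b, hb, h1, h2, h3, h4⟩
  exact ⟨b, hb, h1, h2, h3.trans h, h4⟩

/-- the intersection along a sequence with bounded colours -/
theorem inter_seq (hl1 : ℵ₀ < l) (hL : ∀ r : L, #(Iic r) < l)
    (he : ∀ a, InjOn (e a) (Iio a)) (hG : Spec A e G) (c : ℕ → K) (hc : StrictMono c) (r : L)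
    (hr : ∀ i j, i < j → e (c j) (c i) ≤ r) : #(⋂ i, fm A G l (c i) : Set K) < l := by
  classical
  have h1 : (⋂ i, fm A G l (c i) : Set K) ⊆ ⋃ i : ULift.{u} ℕ, lv A e G l (c i.down) r := by
    intro z hz
    rw [mem_iInter] at hz
    by_contra hcon
    rw [mem_iUnion] at hcon
    push Not at hcon
    have hcon' : ∀ i, z ∉ lv A e G l (c i) r := fun i => hcon ⟨i⟩
    -- the least level
    have hne : ∀ i, {s : L | z ∈ lv A e G l (c i) s}.Nonempty := by
      intro i
      obtain ⟨b, hb, h1, h2, h3⟩ := hz i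
      exact ⟨e (c i) b, b, hb, h1, h2, le_rfl, h3⟩
    let m : ℕ → L := fun i => (wellFounded_lt (α := L)).min _ (hne i)
    have hm : ∀ i, z ∈ lv A e G l (c i) (m i) := fun i =>
      (wellFounded_lt (α := L)).min_mem _ (hne i)
    have hm' : ∀ i s, z ∈ lv A e G l (c i) s → m i ≤ s := fun i s hs =>
      not_lt.1 ((wellFounded_lt (α := L)).not_lt_min _ hs)
    have hdec : ∀ i, m (i + 1) < m i := by
      intro i
      obtain ⟨b, hb, h1, h2, h3, h4⟩ := hm (i + 1)
      have h5 : m (i + 1) = e (c (i + 1)) b :=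
        le_antisymm (hm' (i + 1) _ ⟨b, hb, h1, h2, le_rfl, h4⟩) h3
      have h6 : r < m (i + 1) := by
        by_contra hle
        exact hcon' (i + 1) (lv_mono (not_lt.1 hle) (hm (i + 1)))
      by_contra hge
      obtain ⟨b', hb', h7, h8, h9, h10⟩ := hm i
      have h11 := (spec_mem hl1.le hL he hG h2 (a := c (i + 1))).2 (c i) (hc (Nat.lt_succ_self i)) b'
        hb' ((hr i (i + 1) (Nat.lt_succ_self i)).trans (h6.le.trans h5.le))
        (h9.trans ((not_lt.1 hge).trans h5.le))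
      exact h11 (h4.symm.trans h10)
    have hmin := (wellFounded_lt (α := L)).min_mem (range m) ⟨m 0, 0, rfl⟩
    obtain ⟨i, hi⟩ := hmin
    have h2 := (wellFounded_lt (α := L)).not_lt_min (range m) (x := m (i + 1)) ⟨i + 1, rfl⟩
    rw [← hi] at h2
    exact h2 (hdec i)
  have h2 : ∀ i : ULift.{u} ℕ, #(lv A e G l (c i.down) r) ≤ #(Iic r) := by
    intro i
    refine (mk_le_mk_of_subset ?_).trans (mk_lv_le (G := G) (l := l) (A := A) he (c i.down) r)
    rintro z ⟨b, hb, h1, h2, h3, h4⟩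
    exact ⟨b, hb, h3, h4⟩
  refine (mk_le_mk_of_subset h1).trans_lt ?_
  refine lt_of_le_of_lt ((mk_iUnion_le _).trans (mul_le_mul' le_rfl (ciSup_le' h2))) ?_
  rw [mk_uLift, mk_nat, lift_aleph0]
  exact mul_lt_of_lt hl1.le hl1 (hL r)

end

/-- an infinite increasing sequence in an infinite set -/
theorem exists_seq {K : Type u} [LinearOrder K] [WellFoundedLT K] (X : Set K) (hX : X.Infinite) :
    ∃ c : ℕ → K, StrictMono c ∧ ∀ n, c n ∈ X := by
  have s := hX.natEmbedding X
  obtain ⟨g, hg⟩ := exists_increasing_or_nonincreasing_subseq (α := K) (· < ·) (fun n => (s n).1)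
  rcases hg with hg | hg
  · exact ⟨fun n => (s (g n)).1, fun i j hij => hg i j hij, fun n => (s (g n)).2⟩
  · exfalso
    have hmin := (wellFounded_lt (α := K)).min_mem (range fun n => (s (g n)).1) ⟨_, 0, rfl⟩
    obtain ⟨i, hi⟩ := hmin
    have h2 := (wellFounded_lt (α := K)).not_lt_min (range fun n => (s (g n)).1)
      (x := (s (g (i + 1))).1) ⟨i + 1, rfl⟩
    rw [← hi] at h2
    have h3 := hg i (i + 1) (Nat.lt_succ_self i)
    have h4 : (s (g i)).1 = (s (g (i + 1))).1 := le_antisymm (not_lt.1 h2) (not_lt.1 h3)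
    have h5 := g.injective (s.injective (Subtype.ext h4))
    omega

/-- a sequence with bounded colours -/
theorem exists_bdd {K L : Type u} [LinearOrder K] [WellFoundedLT K] [LinearOrder L]
    (e : K → K → L) (X : Set K) (hX : (2 : Cardinal.{u}) ^ (ℵ₀ : Cardinal.{u}) < #X) :
    ∃ (c : ℕ → K) (r : L), StrictMono c ∧ (∀ n, c n ∈ X) ∧ ∀ i j, i < j → e (c j) (c i) ≤ r := by
  classical
  by_cases hcof : ∃ ρ : ℕ → L, ∀ x, ∃ n, x ≤ ρ n
  · obtain ⟨ρ, hρ⟩ := hcof
    let col : X → X → ℕ := fun s t => Nat.find (hρ (e t.1 s.1))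
    obtain ⟨top, H, d, hH, -, -, hcol⟩ := Pool.Agent.Helper292.SetMap.er (X := X) ℵ₀ le_rfl hX col
    have hinf : H.Infinite := by
      rw [← Set.infinite_coe_iff, Cardinal.infinite_iff]
      exact hH.le
    obtain ⟨c, hc, hcH⟩ := exists_seq H hinf
    refine ⟨fun n => (c n).1, ρ d, fun i j hij => hc hij, fun n => (c n).2, fun i j hij => ?_⟩
    have h1 := hcol (c i) (hcH i) (c j) (hcH j) (hc hij)
    have h2 := Nat.find_spec (hρ (e (c j).1 (c i).1))
    have h3 : Nat.find (hρ (e (c j).1 (c i).1)) = d := h1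
    rwa [h3] at h2
  · push Not at hcof
    have hinf : X.Infinite := by
      rw [← Set.infinite_coe_iff, Cardinal.infinite_iff]
      exact ((cantor ℵ₀).trans hX).le
    obtain ⟨c, hc, hcX⟩ := exists_seq X hinf
    obtain ⟨r, hr⟩ := hcof fun n => e (c n.unpair.2) (c n.unpair.1)
    refine ⟨c, r, hc, hcX, fun i j _ => ?_⟩
    have h1 := hr (Nat.pair i j)
    rw [Nat.unpair_pair] at h1
    exact h1.le

/-- **A set mapping without large free sets.** If `2 ^ l` is the successor of `l` and `l` is greater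
than the continuum, then there is a set mapping `f` on a well-ordered set of size `l⁺`, with
`f x` a set of at most `l` elements smaller than `x`, such that the images of more than continuum
many points always have fewer than `l` common elements, without free sets of size `l⁺`. -/
theorem exists_map (l : Cardinal.{u}) (hl : (2 : Cardinal.{u}) ^ (ℵ₀ : Cardinal.{u}) < l)
    (h2l : (2 : Cardinal.{u}) ^ l = Order.succ l) :
    ∃ (K : Type u) (_ : LinearOrder K) (f : K → Set K), #K = Order.succ l ∧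
      (∀ x, f x ⊆ Iio x) ∧ (∀ x, #(f x) ≤ l) ∧
      (∀ X : Set K, (2 : Cardinal.{u}) ^ (ℵ₀ : Cardinal.{u}) < #X →
        #(⋂ x ∈ X, f x : Set K) < l) ∧
      ∀ F : Set K, Order.succ l ≤ #F → ∃ x ∈ F, ∃ y ∈ F, x ∈ f y := by
  classical
  have hl1 : ℵ₀ < l := (cantor ℵ₀).trans hl
  let K : Type u := (Order.succ l).ord.ToType
  let L : Type u := l.ord.ToType
  have hK : #K = Order.succ l := by simp [K]
  have hLc : #L = l := by simp [L]
  have hseg : ∀ w : K, #(Iio w) ≤ l := by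
    intro w
    have h1 : #(Iio w) < Order.succ l := Cardinal.mk_Iio_toType_ord_lt w
    exact Order.lt_succ_iff.1 h1
  have hL : ∀ r : L, #(Iic r) < l := by
    intro r
    have h1 : #(Iio r) < l := Cardinal.mk_Iio_toType_ord_lt r
    rw [← Iio_insert]
    exact mk_insert_le.trans_lt (add_lt_of_lt hl1.le h1 (one_lt_aleph0.trans hl1))
  have hKne : Nonempty K := by
    rw [← mk_ne_zero_iff, hK]
    exact (lt_of_le_of_lt bot_le (Order.lt_succ l)).ne'
  have hLne : Nonempty L := by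
    rw [← mk_ne_zero_iff, hLc]
    exact (lt_of_le_of_lt bot_le hl1).ne'
  obtain ⟨r0⟩ := hLne
  -- the enumeration
  have hsub : #{t : Set K // #t ≤ l} ≤ #K := by
    refine (mk_bounded_set_le K l).trans ?_
    rw [hK, max_eq_left (hl1.le.trans (Order.le_succ l)), ← h2l, ← power_mul,
      mul_eq_self hl1.le]
  obtain ⟨j⟩ := hsub
  have hne : Nonempty {t : Set K // #t ≤ l} := ⟨⟨∅, by simp⟩⟩
  obtain ⟨A, hA⟩ : ∃ A : K → Set K, ∀ B : Set K, #B ≤ l → ∃ b, A b = B := by
    refine ⟨fun b => (Function.invFun j b).1, fun B hB => ?_⟩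
    obtain ⟨b, hb⟩ := Function.invFun_surjective j.injective ⟨B, hB⟩
    exact ⟨b, congrArg Subtype.val hb⟩
  -- the injections
  have hinj : ∀ a : K, ∃ e : K → L, InjOn e (Iio a) := by
    intro a
    have h1 : #(Iio a) ≤ #L := by
      rw [hLc]
      exact hseg a
    obtain ⟨i⟩ := h1
    refine ⟨fun b => if h : b ∈ Iio a then i ⟨b, h⟩ else r0, ?_⟩
    intro b hb b' hb' h
    simp only [dif_pos hb, dif_pos hb'] at h
    exact congrArg Subtype.val (i.injective h)
  choose e he using hinj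
  obtain ⟨G, hG⟩ := exists_spec A e
  refine ⟨K, inferInstance, fm A G l, hK, fm_sub hl1.le hL he hG,
    fun a => (mk_fm_le a).trans (hseg a), ?_, ?_⟩
  · intro X hX
    obtain ⟨c, r, hc, hcX, hr⟩ := exists_bdd e X hX
    refine lt_of_le_of_lt (mk_le_mk_of_subset ?_) (inter_seq hl1 hL he hG c hc r hr)
    intro z hz
    rw [mem_iInter]
    intro i
    exact mem_iInter₂.1 hz (c i) (hcX i)
  · intro F hF
    obtain ⟨B, hBF, hB⟩ := (le_mk_iff_exists_subset).1 ((Order.le_succ l).trans hF)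
    obtain ⟨b, rfl⟩ := hA B hB.le
    have hex : ∃ a ∈ F, (∀ x ∈ A b, x < a) ∧ b < a := by
      by_contra hcon
      push Not at hcon
      have h1 : F ⊆ (⋃ x : (A b : Set K), Iic x.1) ∪ Iic b := by
        intro a ha
        by_cases h : ∀ x ∈ A b, x < a
        · exact Or.inr (hcon a ha h)
        · push Not at h
          obtain ⟨x, hx, hxa⟩ := h
          exact Or.inl (mem_iUnion.2 ⟨⟨x, hx⟩, hxa⟩)
      have hIic : ∀ x : K, #(Iic x) ≤ l := by
        intro x
        rw [← Iio_insert]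
        exact mk_insert_le.trans ((add_le_add (hseg x) (one_lt_aleph0.trans hl1).le).trans
          (add_eq_self hl1.le).le)
      have h2 : #F ≤ l := by
        refine (mk_le_mk_of_subset h1).trans ((mk_union_le _ _).trans ?_)
        refine (add_le_add ((mk_iUnion_le _).trans ((mul_le_mul' hB.le
          (ciSup_le' fun x => hIic x.1)).trans (mul_eq_self hl1.le).le)) (hIic b)).trans ?_
        exact (add_eq_self hl1.le).le
      exact absurd (hF.trans h2) (not_le.2 (Order.lt_succ l))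
    obtain ⟨a, haF, ha1, ha2⟩ := hex
    exact ⟨G a b, hBF (spec_mem hl1.le hL he hG hB).1, a, haF, b, ha2, ha1, hB, rfl⟩

end Pool.Agent.Y785.SM5
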